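import Pool.Agent.Work.MP_1ce445_pl3.InterfaceL
import Pool.Agent.Work.MP_1ce445_pl3.Interface2

/-!
THE WHOLE FIRST PLATEAU, `25 k ≤ 3 n` (helper94, helper66). Port of `MP_1ce445_pl3` (`120 k ≤ n`) to `25 k ≤ 3 n`; the stability of
the set systems for `c = 301/2500` is S9 (helper75). `κ = 3k/n ≤ 9/25`. For every `ε` in ` (0,1)` and large `n`:
`N^(k-3) (N/3 + 2 (1-ε) ρ)³ ≤ P n k ≤ N^(k-3) (N/3 + 2 (1+ε) ρ + 2)³`.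

Files `Pool/Agent/Work/MP_1ce445_pl4/<ID>.lean`, `import Pool.Agent.Work.MP_1ce445_pl4.Interface`, `namespace` and `open` lines as
in this file, theorem `stmt_<ID>` with exactly the statements of the column `uses` as hypotheses, in this order.
-/

namespace Pool.Agent.Work.MP_1ce445_pl4

open Finset Pool.Agent.Work.MP_1ce445_co_56 Pool.Agent.Work.MP_1ce445_lin
  Pool.Agent.Work.MP_1ce445_fx Pool.Agent.Work.MP_1ce445_pl3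

/-- The situation on the plateau: `SitP` with `25 k ≤ 3 n`. -/
structure SitQ {n k : ℕ} (G : Fin k → SimpleGraph (Fin n)) (e : Fin 3 → Fin k) (θ s : ℝ) : Prop where
  sit : Sit G e θ
  leN : ∀ l, gammaT (G l) ≤ NN n
  s0 : 0 < s
  s1 : s ≤ 1 / 100
  def' : (sn G e : ℝ) ≤ s * n
  siz : ∀ i, (1 / 3 - s) * n ≤ ((low (G (e i)) θ).card : ℝ)
  dis : ∀ i j v, i ≠ j → v ∈ low (G (e i)) θ → v ∉ low (G (e j)) θ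
  kn : 25 * (k : ℝ) ≤ 3 * n

/-! ### Stability -/

/-- S9 (helper75): set systems with `c = 301/2500`, with a margin. -/
def Stmt_S9 : Prop :=
  ∀ {V : Type} [Fintype V] {k : ℕ} (M : Finset (Fin k)) (T : V → Finset (Fin k)),
    0 < Fintype.card V → (∀ v, T v ⊆ M) →
    (∀ v, ((univ.filter (fun w => T v ∩ T w = ∅)).card : ℝ) ≤ 301 / 2500 * Fintype.card V) →
    (∏ x ∈ M, (1 - prU T x) ≤ 1 / 27 - 1 / 2000000) ∨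
    ∃ a b d : Fin k, a ≠ b ∧ a ≠ d ∧ b ≠ d ∧ a ∈ M ∧ b ∈ M ∧ d ∈ M ∧
      ∀ v, 2 ≤ (T v ∩ {a, b, d}).card

/-- STQ (uses CR3 S9 DG2): port of `MP_1ce445_pl3/STP.lean`. `θ₁ = min (min θ (s²)) (1/10^6)`, so the constants `s'`, `e1`, `t` of
`STU_const` are at most `1/10^10`. The condition of S9: `k + 1 + s' n ≤ (301/2500)(1 - s') n` by `25 k ≤ 3 n`. First alternative:
the product is at most ` (1/27 - 1/2000000 + 5 s' + e1)(1 + e1) N^k < N^k/27`. Second alternative as in STP; moreover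
`x_j = 1 - ∑ (other two) ≤ 1/3 + s`. `dis`: now `∑_{oth} dg ≤ 2 k + sn ≤ (25/100) n`, so `dg (G (e m)) univ v ≥ (74/100) n - 1` and
`γ (G (e m)) ≤ (26/100) n + 2`; but `γ (G j) ≤ (1/3 + 1/50) n` for the three colours (`x_j ≤ 1/3 + s`, `s' + t` small), so
`N³/27 ≤ γ (G (e m)) ((1/3 + 1/50) n)²` gives `γ (G (e m)) ≥ (29/100) n` for large `n`, a contradiction. -/
def Stmt_STQ : Prop :=
  ∀ θ s : ℝ, 0 < θ → θ ≤ 1 / 1000 → 0 < s → s ≤ 1 / 100 → ∃ n0 : ℕ, ∀ n k : ℕ, n0 ≤ n → 3 ≤ k →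
    25 * k ≤ 3 * n → ∀ G : Fin k → SimpleGraph (Fin n), IsFactorization G →
    1 / 27 * (NN n : ℝ) ^ k ≤ ∏ j, (gammaT (G j) : ℝ) → ∃ e : Fin 3 → Fin k, SitQ G e θ s

/-! ### The main estimate -/

/-- GDQ (uses TAU TA2): `GDP` with `4 s ≤ ω`. -/
def Stmt_GDQ : Prop :=
  ∀ (n k m : ℕ) (G : Fin k → SimpleGraph (Fin n)) (e : Fin 3 → Fin k) (θ s ω : ℝ),
    SitQ G e θ s → 0 < ω → ω ≤ 1 / 10 → 4 * s ≤ ω → 1 ≤ m →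
    ∀ v, (ddw G e θ v : ℝ) + EEw G e v ≤ ω / 6 * n →
      ∑ j, ta G e θ j v ^ m ≤ (3 * (k : ℝ) / n + ω) ^ m

/-- EMQ (uses DG2): `EMP`. -/
def Stmt_EMQ : Prop :=
  ∀ (n k : ℕ) (G : Fin k → SimpleGraph (Fin n)) (e : Fin 3 → Fin k) (θ s : ℝ), SitQ G e θ s →
    ∑ v, (EEw G e v : ℝ) ≤ 6 * (k + (sn G e : ℝ) ^ 2)

/-- BDQ (uses EMQ): `BDP` with `26/ω` (`216 · 3/25 ≤ 26`). -/
def Stmt_BDQ : Prop :=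
  ∀ (n k : ℕ) (G : Fin k → SimpleGraph (Fin n)) (e : Fin 3 → Fin k) (θ s ω : ℝ), SitQ G e θ s →
    0 < ω → 21600 * s ≤ ω →
    3 * ((univ.filter (fun v => ω / 12 * n < (EEw G e v : ℝ))).card : ℝ) ≤ 26 / ω + sn G e / 100

/-- ADC (uses SMM TAU GDQ BDQ): `ADA`. -/
def Stmt_ADC : Prop :=
  ∀ (n k m : ℕ) (G : Fin k → SimpleGraph (Fin n)) (e : Fin 3 → Fin k) (θ s ω : ℝ),
    SitQ G e θ s → 0 < ω → ω ≤ 1 / 10 → 21600 * s ≤ ω → 1 ≤ m →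
    (∀ i v, (MP_1ce445_fx.dg (G (e i)) (low (G (e i)) θ) v : ℝ) ≤ ω / 36 * n) →
    sg G e ≤ n + 6 * m + n * (3 * (k : ℝ) / n + ω) ^ m + 26 / ω + sn G e / 100

/-- ADQ (uses SMM TAU GDQ BDQ): `ADB` with ` (1/2)^r ≤ ω/3600` (`3k/n + ω ≤ 1/2`). -/
def Stmt_ADQ : Prop :=
  ∀ ω : ℝ, 0 < ω → ω ≤ 1 / 10 → ∃ θ₀ : ℝ, 0 < θ₀ ∧ ∃ n0 : ℕ,
    ∀ (n k : ℕ) (G : Fin k → SimpleGraph (Fin n)) (e : Fin 3 → Fin k) (θ s : ℝ),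
    SitQ G e θ s → θ ≤ θ₀ → 21600 * s ≤ ω → n0 ≤ n →
    (∃ i v, ω / 36 * n < (MP_1ce445_fx.dg (G (e i)) (low (G (e i)) θ) v : ℝ)) →
    sg G e ≤ n + 26 / ω + sn G e / 100

/-- AWQ (uses ADC ADQ): `ADW`. -/
def Stmt_AWQ : Prop :=
  ∀ ω : ℝ, 0 < ω → ω ≤ 1 / 10 → ∃ θ s : ℝ, 0 < θ ∧ θ ≤ 1 / 1000 ∧ 0 < s ∧ s ≤ 1 / 100 ∧ ∃ n0 : ℕ,
    ∀ (n k m : ℕ) (G : Fin k → SimpleGraph (Fin n)) (e : Fin 3 → Fin k), n0 ≤ n → 1 ≤ m →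
    SitQ G e θ s →
    sg G e ≤ n + 6 * m + n * (3 * (k : ℝ) / n + ω) ^ m + 26 / ω + sn G e / 100

/-! ### Upper bounds -/

/-- UIQ (uses STQ AWQ PRM): `UPI` with `κ ≤ 9/25`, `- log κ ≥ 1`, `r = 1 + 26/ω + sn/100`. -/
def Stmt_UIQ : Prop :=
  ∀ ε ε₂ : ℝ, 0 < ε → ε < 1 → 0 < ε₂ → ε₂ < 1 → ∃ n0 : ℕ, ∀ n k : ℕ, n0 ≤ n → 3 ≤ k →
    25 * k ≤ 3 * n → ε₂ * n ≤ 3 * k →
    (P n k : ℝ) ≤ (NN n : ℝ) ^ (k - 3) * ((NN n : ℝ) / 3 + 2 * (1 + ε) * rh n k) ^ 3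

/-- UYQ (uses UIQ UPS UUQ): `UPY`. -/
def Stmt_UYQ : Prop :=
  ∀ ε : ℝ, 0 < ε → ε < 1 → ∃ n0 : ℕ, ∀ n k : ℕ, n0 ≤ n → 3 ≤ k → 25 * k ≤ 3 * n →
    (P n k : ℝ) ≤ (NN n : ℝ) ^ (k - 3) * ((NN n : ℝ) / 3 + 2 * (1 + ε) * rh n k + 2) ^ 3

/-! ### Lower bounds -/

/-- LEQ (uses LRL LMU LG1 LG2 LG3): `LWE` with `4 k ≤ q`. -/
def Stmt_LEQ : Prop :=
  ∀ ε : ℝ, 0 < ε → ε < 1 → ∃ q0 : ℕ, ∀ q k r : ℕ, q0 ≤ q → (2 * (q : ℝ)) ^ (1 - ε / 8) ≤ k →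
    4 * k ≤ q → 1 ≤ r → 1 ≤ (2 * (q : ℝ)) ^ (1 - ε) * (3 * (k : ℝ) / (2 * q)) ^ (r - 1) →
    (2 * q) ^ (k - 3) * TTm r q ≤ P (2 * q) k

/-- LGQ (uses LEQ LSM LTT): `LWG` with `8 k ≤ n`. -/
def Stmt_LGQ : Prop :=
  ∀ ε : ℝ, 0 < ε → ε < 1 → ∃ n0 : ℕ, ∀ n k : ℕ, n0 ≤ n → Even n → 28 ≤ k → 8 * k ≤ n →
    (n : ℝ) ^ (k - 3) * ((n : ℝ) / 3 + 2 * (1 - ε) * rh n k) ^ 3 ≤ (P n k : ℝ)

/-- LFQ (uses LGQ CLN): `LWF` with `8 k ≤ n`. -/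
def Stmt_LFQ : Prop :=
  ∀ ε : ℝ, 0 < ε → ε < 1 → ∃ n0 : ℕ, ∀ n k : ℕ, n0 ≤ n → 28 ≤ k → 8 * k ≤ n →
    (NN n : ℝ) ^ (k - 3) * ((NN n : ℝ) / 3 + 2 * (1 - ε) * rh n k) ^ 3 ≤ (P n k : ℝ)

/-- PL4 (uses UYQ LFQ): the two-sided statement on the whole plateau. -/
def Stmt_PL4 : Prop :=
  ∀ ε : ℝ, 0 < ε → ε < 1 → ∃ n0 : ℕ, ∀ n k : ℕ, n0 ≤ n → 28 ≤ k → 25 * k ≤ 3 * n →
    ∃ R : ℝ, (P n k : ℝ) = (NN n : ℝ) ^ (k - 3) * ((NN n : ℝ) / 3 + R) ^ 3 ∧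
      2 * (1 - ε) * rh n k ≤ R ∧ R ≤ 2 * (1 + ε) * rh n k + 2

end Pool.Agent.Work.MP_1ce445_pl4
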