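import Pool.Agent.Work.MP_1ce445_pl4.All
import Pool.Agent.Work.MP_1ce445_pl4.PLF

/-!
The whole first plateau for all `3 ≤ k`, `25 k ≤ 3 n` (helper94).
-/

namespace Pool.Agent.Work.MP_1ce445_pl4

open Finset Pool.Agent.Work.MP_1ce445_co_56 Pool.Agent.Work.MP_1ce445_lin
  Pool.Agent.Work.MP_1ce445_fx Pool.Agent.Work.MP_1ce445_pl3

/-- For every `ε` in `(0,1)` and large `n`, `3 ≤ k`, `25 k ≤ 3 n`, there is `R` with `P n k = N^(k-3) (N/3 + R)³`,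
`2 (1-ε) ρ ≤ R ≤ 2 (1+ε) ρ + 2`. -/
theorem h_PLF : Stmt_PLF := stmt_PLF h_UYQ h_LTT h_LGQ

end Pool.Agent.Work.MP_1ce445_pl4
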