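import Pool.Agent.Work.MP_1ce445_pl4.Interface

/-! Block ADC: the main estimate, all degrees into the special sets small. -/

namespace Pool.Agent.Work.MP_1ce445_pl4

open Finset Pool.Agent.Work.MP_1ce445_co_56 Pool.Agent.Work.MP_1ce445_lin
  Pool.Agent.Work.MP_1ce445_fx Pool.Agent.Work.MP_1ce445_pl3

theorem stmt_ADC : Stmt_SMM → Stmt_TAU → Stmt_GDQ → Stmt_BDQ → Stmt_ADC := by
  classical
  intro hSMM hTAU hGDP hBDP n k m G e θ s ω hP hω hω' hs hm hd
  have hS := hP.sit
  have hs0 := hP.s0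
  obtain ⟨s1, s2, _⟩ := hSMM m n k G e θ hm hS
  have hta := (hTAU n k G e θ hS).2
  have hB := hBDP n k G e θ s ω hP hω hs
  obtain ⟨X, hX⟩ : ∃ X : ℝ, X = (3 * (k : ℝ) / n + ω) ^ m := ⟨_, rfl⟩
  have hX0 : 0 ≤ X := by rw [hX]; positivity
  have h1 : ∀ v, ∑ i, am G e θ m i v ≤
      1 + X + 3 * (if ω / 12 * n < (EEw G e v : ℝ) then 1 else 0) := by
    intro v
    by_cases hv : ω / 12 * n < (EEw G e v : ℝ)
    · rw [if_pos hv]
      have h2 : ∑ i, ta G e θ i v ^ m ≤ ∑ _i : Fin 3, (1 : ℝ) :=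
        sum_le_sum fun i _ => pow_le_one₀ (hta i v).1 (hta i v).2.1
      have h3 : ∑ _i : Fin 3, (1 : ℝ) = 3 := by simp
      have h4 := s1 v
      linarith
    · rw [if_neg hv]
      push Not at hv
      have h2 : (ddw G e θ v : ℝ) ≤ 3 * (ω / 36 * n) := by
        have h3 : (ddw G e θ v : ℝ) ≤ ∑ _i : Fin 3, (ω / 36 * n) := by
          unfold ddw
          rw [Nat.cast_sum]
          exact sum_le_sum fun i _ => hd i v
        have h4 : ∑ _i : Fin 3, (ω / 36 * (n : ℝ)) = 3 * (ω / 36 * n) := by simp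
        linarith
      have h5 := hGDP n k m G e θ s ω hP hω hω' (by linarith) hm v (by linarith)
      rw [← hX] at h5
      have h6 := s1 v
      linarith
  have h2 : ∑ v, ∑ i, am G e θ m i v ≤
      n + n * X + 3 * ((univ.filter (fun v => ω / 12 * n < (EEw G e v : ℝ))).card : ℝ) := by
    calc ∑ v, ∑ i, am G e θ m i v
        ≤ ∑ v : Fin n, (1 + X + 3 * (if ω / 12 * n < (EEw G e v : ℝ) then 1 else 0)) :=
          sum_le_sum fun v _ => h1 v
      _ = _ := by
          rw [sum_add_distrib, ← mul_sum, sum_boole, sum_const, card_univ, Fintype.card_fin,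
            nsmul_eq_mul]
          ring
  rw [← hX]
  linarith

end Pool.Agent.Work.MP_1ce445_pl4
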