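import Pool.Agent.Work.MP_1ce445_pl4.Interface

/-! # Block AWQ -/

namespace Pool.Agent.Work.MP_1ce445_pl4

open Finset Pool.Agent.Work.MP_1ce445_co_56 Pool.Agent.Work.MP_1ce445_lin
  Pool.Agent.Work.MP_1ce445_fx Pool.Agent.Work.MP_1ce445_pl3

theorem stmt_AWQ (h1 : Stmt_ADC) (h2 : Stmt_ADQ) : Stmt_AWQ := by
  intro ω hω hω1
  obtain ⟨θ₀, hθ₀, n0, h⟩ := h2 ω hω hω1
  refine ⟨min θ₀ (1 / 1000), ω / 21600, lt_min hθ₀ (by norm_num), min_le_right _ _, by positivity,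
    by linarith, n0, fun n k m G e hn hm hS => ?_⟩
  have hs : 21600 * (ω / 21600) ≤ ω := le_of_eq (by ring)
  by_cases hc : ∀ i v, (MP_1ce445_fx.dg (G (e i)) (low (G (e i)) (min θ₀ (1 / 1000))) v : ℝ) ≤
      ω / 36 * n
  · exact h1 n k m G e _ _ ω hS hω hω1 hs hm hc
  · push Not at hc
    have h3 := h n k G e _ _ hS (min_le_left _ _) hs hn hc
    have h4 : (0 : ℝ) ≤ n * (3 * (k : ℝ) / n + ω) ^ m := by positivity
    have h5 : (0 : ℝ) ≤ 6 * m := by positivity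
    linarith

end Pool.Agent.Work.MP_1ce445_pl4
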