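import Pool.Agent.Work.MP_1ce445_pl4.Interface

/-! # Block BDQ -/

namespace Pool.Agent.Work.MP_1ce445_pl4

open Finset Pool.Agent.Work.MP_1ce445_co_56 Pool.Agent.Work.MP_1ce445_lin
  Pool.Agent.Work.MP_1ce445_fx Pool.Agent.Work.MP_1ce445_pl3

theorem stmt_BDQ (h1 : Stmt_EMQ) : Stmt_BDQ := by
  intro n k G e θ s ω hS hω hs
  have hn : (0 : ℝ) < n := by exact_mod_cast hS.sit.pos
  have h2 := h1 n k G e θ s hS
  set B := univ.filter (fun v => ω / 12 * n < (EEw G e v : ℝ)) with hB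
  have h3 : (B.card : ℝ) * (ω / 12 * n) ≤ ∑ v, (EEw G e v : ℝ) := by
    calc (B.card : ℝ) * (ω / 12 * n) = ∑ v ∈ B, ω / 12 * n := by
          rw [sum_const, nsmul_eq_mul]
      _ ≤ ∑ v ∈ B, (EEw G e v : ℝ) := sum_le_sum fun v hv => (mem_filter.1 hv).2.le
      _ ≤ ∑ v, (EEw G e v : ℝ) :=
          sum_le_sum_of_subset_of_nonneg (subset_univ _) fun v _ _ => Nat.cast_nonneg _
  have hk := hS.kn
  have hd := hS.def'
  have hσ : (0 : ℝ) ≤ sn G e := Nat.cast_nonneg _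
  have h4 : (sn G e : ℝ) ^ 2 ≤ s * n * sn G e := by
    rw [sq]
    exact mul_le_mul_of_nonneg_right hd hσ
  have h5 : 3 * (B.card : ℝ) * (ω * n) ≤ (26 / ω + sn G e / 100) * (ω * n) := by
    have e1 : (26 / ω + (sn G e : ℝ) / 100) * (ω * n) = 26 * n + ω * (n * sn G e) / 100 := by
      field_simp
    rw [e1]
    have h6 : 3 * (B.card : ℝ) * (ω * n) ≤ 216 * (k + (sn G e : ℝ) ^ 2) := by linarith
    have h7 : 21600 * s * (n * sn G e) ≤ ω * (n * sn G e) :=
      mul_le_mul_of_nonneg_right hs (by positivity)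
    linarith
  exact le_of_mul_le_mul_right h5 (by positivity)

end Pool.Agent.Work.MP_1ce445_pl4
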