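import Pool.Agent.Work.MP_1ce445_pl4.Interface
import Pool.Agent.Work.MP_1ce445_fx.InterfaceL

/-!
Block LFQ (MP_1ce445_co, first plateau, lower half, all `n`).
-/

namespace Pool.Agent.Work.MP_1ce445_pl4

open Finset Pool.Agent.Work.MP_1ce445_co_56 Pool.Agent.Work.MP_1ce445_lin
  Pool.Agent.Work.MP_1ce445_fx Pool.Agent.Work.MP_1ce445_pl3

/-- `rh` as a quotient, and it is nonnegative and decreasing in `n` -/
lemma LFQ_rh {N k : ℕ} (hk : 28 ≤ k) (hN : 8 * k ≤ N) :
    0 ≤ rh (N + 1) k ∧ rh (N + 1) k ≤ rh N k := by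
  have hk' : (28 : ℝ) ≤ k := by exact_mod_cast hk
  have hN' : 8 * (k : ℝ) ≤ N := by exact_mod_cast hN
  have hk0 : (0 : ℝ) < 3 * k := by linarith
  have hN0 : (0 : ℝ) < N := by linarith
  have hn0 : (0 : ℝ) < ((N + 1 : ℕ) : ℝ) := by push_cast; linarith
  have ha : 0 ≤ Real.log (3 * k) := Real.log_nonneg (by linarith)
  have hxy : Real.log N ≤ Real.log ((N + 1 : ℕ) : ℝ) :=
    Real.log_le_log hN0 (by push_cast; linarith)
  have hya : Real.log (3 * k) < Real.log N := Real.log_lt_log hk0 (by linarith)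
  have e1 : rh N k = Real.log N / (Real.log N - Real.log (3 * k)) := by
    unfold rh
    rw [Real.log_div hk0.ne' hN0.ne']
    congr 1
    ring
  have e2 : rh (N + 1) k = Real.log ((N + 1 : ℕ) : ℝ) /
      (Real.log ((N + 1 : ℕ) : ℝ) - Real.log (3 * k)) := by
    unfold rh
    rw [Real.log_div hk0.ne' hn0.ne']
    congr 1
    ring
  rw [e1, e2]
  generalize Real.log ((N + 1 : ℕ) : ℝ) = x at *
  generalize Real.log (N : ℝ) = y at *
  generalize Real.log (3 * (k : ℝ)) = a at *
  constructor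
  · apply div_nonneg
    · linarith
    · linarith
  · rw [div_le_div_iff₀ (by linarith) (by linarith)]
    nlinarith

theorem stmt_LFQ : Stmt_LGQ → Stmt_CLN → Stmt_LFQ := by
  intro hL hC ε hε hε1
  obtain ⟨n0, h⟩ := hL ε hε hε1
  refine ⟨n0 + 1, ?_⟩
  intro n k hn hk hkn
  rcases Nat.even_or_odd n with hev | hodd
  · have hNN : NN n = n := by
      obtain ⟨q, rfl⟩ := hev
      unfold NN
      omega
    rw [hNN]
    exact h n k (by omega) hev hk hkn
  · obtain ⟨q, rfl⟩ := hodd
    have hNN : NN (2 * q + 1) = 2 * q := by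
      unfold NN
      omega
    rw [hNN]
    have h1 := h (2 * q) k (by omega) (even_two_mul q) hk (by omega)
    have h2 := hC (2 * q) k (by omega) (by omega)
    obtain ⟨r0, r1⟩ := LFQ_rh (N := 2 * q) hk (by omega)
    refine le_trans ?_ (h1.trans (by exact_mod_cast h2))
    apply mul_le_mul_of_nonneg_left _ (by positivity)
    have h4 : 0 ≤ 2 * (1 - ε) := by linarith
    apply pow_le_pow_left₀
    · have h3 : 0 ≤ 2 * (1 - ε) * rh (2 * q + 1) k := mul_nonneg h4 r0
      positivity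
    · have h3 := mul_le_mul_of_nonneg_left r1 h4
      linarith

end Pool.Agent.Work.MP_1ce445_pl4
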