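import Pool.Agent.Work.MP_1ce445_pl4.STQ0
import Pool.Agent.Work.MP_1ce445_fx.TAU

/-!
# Block STQ: stability of factorizations with a large product on the whole first plateau (`25 k ≤ 3 n`)
-/

namespace Pool.Agent.Work.MP_1ce445_pl4

open Finset Pool.Agent.Work.MP_1ce445_co_56 Pool.Agent.Work.MP_1ce445_lin
  Pool.Agent.Work.MP_1ce445_fx Pool.Agent.Work.MP_1ce445_pl3

theorem STQ_third (i j : Fin 3) (hij : i ≠ j) : ∃ m : Fin 3,
    (∀ f : Fin 3 → ℝ, f 0 * f 1 * f 2 = f m * (f i * f j)) ∧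
    (∀ f : Fin 3 → ℝ, f 0 + f 1 + f 2 = f m + f i + f j) := by
  fin_cases i <;> fin_cases j
  · exact absurd rfl hij
  · exact ⟨2, fun f => by simp only [Fin.zero_eta, Fin.mk_one] <;> ring,
      fun f => by simp only [Fin.zero_eta, Fin.mk_one] <;> ring⟩
  · exact ⟨1, fun f => by simp only [Fin.zero_eta, Fin.reduceFinMk] <;> ring,
      fun f => by simp only [Fin.zero_eta, Fin.reduceFinMk] <;> ring⟩
  · exact ⟨2, fun f => by simp only [Fin.zero_eta, Fin.mk_one] <;> ring,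
      fun f => by simp only [Fin.zero_eta, Fin.mk_one] <;> ring⟩
  · exact absurd rfl hij
  · exact ⟨0, fun f => by simp only [Fin.mk_one, Fin.reduceFinMk] <;> ring,
      fun f => by simp only [Fin.mk_one, Fin.reduceFinMk] <;> ring⟩
  · exact ⟨1, fun f => by simp only [Fin.zero_eta, Fin.reduceFinMk] <;> ring,
      fun f => by simp only [Fin.zero_eta, Fin.reduceFinMk] <;> ring⟩
  · exact ⟨0, fun f => by simp only [Fin.mk_one, Fin.reduceFinMk] <;> ring,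
      fun f => by simp only [Fin.mk_one, Fin.reduceFinMk] <;> ring⟩
  · exact absurd rfl hij

/-- the low sets are disjoint -/
theorem STQ_dis (h : Stmt_DG2) {n k : ℕ} {G : Fin k → SimpleGraph (Fin n)} {e : Fin 3 → Fin k}
    {θ : ℝ} (hs : Sit G e θ) (hN : ∀ l, gammaT (G l) ≤ NN n) (hn : 10000 ≤ n) (hk : 25 * k ≤ 3 * n)
    (hG1 : ∀ l, ∀ v, ∃ w, (G l).Adj v w)
    (hsn : (sn G e : ℝ) ≤ 1 / 1000000 * n)
    (hg : ∀ i, (gammaT (G (e i)) : ℝ) ≤ (1 / 3 + 1 / 250) * n)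
    (hp : 1 / 27 * (NN n : ℝ) ^ 3 ≤ gammaT (G (e 0)) * gammaT (G (e 1)) * gammaT (G (e 2)))
    {i j : Fin 3} {v : Fin n} (hij : i ≠ j) (hi : v ∈ low (G (e i)) θ) (hj : v ∈ low (G (e j)) θ) :
    False := by
  have hn' : (10000 : ℝ) ≤ n := by exact_mod_cast hn
  have hk' : 25 * (k : ℝ) ≤ 3 * n := by exact_mod_cast hk
  have hleN : (n : ℝ) ≤ NN n + 1 := by
    have : n ≤ NN n + 1 := by unfold NN; omega
    exact_mod_cast this
  have hNle : NN n ≤ n := by unfold NN; omega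
  obtain ⟨m, hm1, hm2⟩ := STQ_third i j hij
  have hi' : (MP_1ce445_fx.dg (G (e i)) univ v : ℝ) < θ * n := (mem_filter.1 hi).2
  have hj' : (MP_1ce445_fx.dg (G (e j)) univ v : ℝ) < θ * n := (mem_filter.1 hj).2
  have hth : θ * n ≤ 1 / 1000 * n := mul_le_mul_of_nonneg_right hs.th' (by linarith)
  have hcov := TAU_cover hs.fac e univ v 0
  rw [card_univ, Fintype.card_fin] at hcov
  have hcov' : (n : ℝ) ≤ 1 + MP_1ce445_fx.dg (G (e 0)) univ v + MP_1ce445_fx.dg (G (e 1)) univ v +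
      MP_1ce445_fx.dg (G (e 2)) univ v + ∑ l ∈ oth e, (MP_1ce445_fx.dg (G l) univ v : ℝ) := by
    exact_mod_cast hcov
  have h3 := hm2 (fun l => (MP_1ce445_fx.dg (G (e l)) univ v : ℝ))
  have hoth : ∑ l ∈ oth e, (MP_1ce445_fx.dg (G l) univ v : ℝ) ≤ 2 * k + sn G e := by
    have h4 : ∑ l ∈ oth e, MP_1ce445_fx.dg (G l) univ v ≤
        ∑ l ∈ oth e, (2 + (NN n - gammaT (G l))) := by
      apply sum_le_sum
      intro l _
      have h5 := (h n (G l) (hG1 l)).1 v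
      have h6 := hN l
      have h7 : n ≤ NN n + 1 := by unfold NN; omega
      omega
    rw [sum_add_distrib, sum_const, smul_eq_mul] at h4
    have h5 : (oth e).card ≤ k := by
      have := card_le_univ (oth e)
      simpa using this
    have h6 : ∑ l ∈ oth e, MP_1ce445_fx.dg (G l) univ v ≤ 2 * k + sn G e := by
      unfold sn
      omega
    exact_mod_cast h6
  have hdm : (757 / 1000 : ℝ) * n ≤ MP_1ce445_fx.dg (G (e m)) univ v := by
    linarith
  have hgm : (gammaT (G (e m)) : ℝ) ≤ 244 / 1000 * n := by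
    have h5 := (h n (G (e m)) (hG1 (e m))).1 v
    have h6 := (hN (e m)).trans hNle
    have h7 : MP_1ce445_fx.dg (G (e m)) univ v + gammaT (G (e m)) ≤ n + 1 := by omega
    have h8 : (MP_1ce445_fx.dg (G (e m)) univ v : ℝ) + gammaT (G (e m)) ≤ n + 1 := by
      exact_mod_cast h7
    linarith
  have h4 := hm1 (fun l => (gammaT (G (e l)) : ℝ))
  rw [h4] at hp
  have hi0 : (0 : ℝ) ≤ gammaT (G (e i)) := Nat.cast_nonneg _
  have hj0 : (0 : ℝ) ≤ gammaT (G (e j)) := Nat.cast_nonneg _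
  have hn0 : (0 : ℝ) ≤ n := by linarith
  have h5 : (gammaT (G (e i)) * gammaT (G (e j)) : ℝ) ≤
      ((1 / 3 + 1 / 250) * n) * ((1 / 3 + 1 / 250) * n) :=
    mul_le_mul (hg i) (hg j) hj0 (by positivity)
  have h6 : (gammaT (G (e m)) * (gammaT (G (e i)) * gammaT (G (e j))) : ℝ) ≤
      (244 / 1000 * n) * (((1 / 3 + 1 / 250) * n) * ((1 / 3 + 1 / 250) * n)) :=
    mul_le_mul hgm h5 (by positivity) (by positivity)
  have h7 : (999 / 1000 * (n : ℝ)) ^ 3 ≤ (NN n : ℝ) ^ 3 :=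
    pow_le_pow_left₀ (by positivity) (by linarith) 3
  have h8 : (0 : ℝ) < (n : ℝ) ^ 3 := by positivity
  have h9 : (244 / 1000 * (n : ℝ)) * (((1 / 3 + 1 / 250) * n) * ((1 / 3 + 1 / 250) * n)) =
      (244 / 1000 * (1 / 3 + 1 / 250) ^ 2) * (n : ℝ) ^ 3 := by ring
  have h10 : (999 / 1000 * (n : ℝ)) ^ 3 = (999 / 1000) ^ 3 * (n : ℝ) ^ 3 := by ring
  rw [h9] at h6
  rw [h10] at h7
  norm_num at h6 h7
  linarith

theorem stmt_STQ : Stmt_CR3 → Stmt_S9 → Stmt_DG2 → Stmt_STQ := by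
  intro h1 h2 h3 θ s hθ hθ1 hs hs1
  obtain ⟨n0, H⟩ := STQ_core h1 h2 θ s hθ hθ1 hs hs1
  refine ⟨max n0 10000, fun n k hn hk3 hk G hG hp => ?_⟩
  have hn1 : n0 ≤ n := (le_max_left _ _).trans hn
  have hn2 : 10000 ≤ n := (le_max_right _ _).trans hn
  obtain ⟨e, hsit, hN, hsn, hsn6, hsiz, hg, hpr⟩ := H n k hn1 hk3 hk G hG hp
  refine ⟨e, ⟨hsit, hN, hs, hs1, hsn, hsiz, ?_, by exact_mod_cast hk⟩⟩
  intro i j v hij hi hj
  exact STQ_dis h3 hsit hN hn2 hk (fun l v => hG.minDeg l v) hsn6 hg hpr hij hi hj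

end Pool.Agent.Work.MP_1ce445_pl4
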