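import Pool.Agent.Work.MP_1ce445_pl3.All2
import Pool.Agent.Work.MP_1ce445_s9.All
import Pool.Agent.Work.MP_1ce445_pl4.STQ
import Pool.Agent.Work.MP_1ce445_pl4.GDQ
import Pool.Agent.Work.MP_1ce445_pl4.EMQ
import Pool.Agent.Work.MP_1ce445_pl4.BDQ
import Pool.Agent.Work.MP_1ce445_pl4.ADC
import Pool.Agent.Work.MP_1ce445_pl4.ADQ
import Pool.Agent.Work.MP_1ce445_pl4.AWQ
import Pool.Agent.Work.MP_1ce445_pl4.UIQ
import Pool.Agent.Work.MP_1ce445_pl4.UYQ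
import Pool.Agent.Work.MP_1ce445_pl4.LEQ
import Pool.Agent.Work.MP_1ce445_pl4.LGQ
import Pool.Agent.Work.MP_1ce445_pl4.LFQ
import Pool.Agent.Work.MP_1ce445_pl4.PL4

/-!
Assembly of the two-sided statement on the whole first plateau, `25 k ≤ 3 n` (helper94).
-/

namespace Pool.Agent.Work.MP_1ce445_pl4

open Finset Pool.Agent.Work.MP_1ce445_co_56 Pool.Agent.Work.MP_1ce445_lin
  Pool.Agent.Work.MP_1ce445_fx Pool.Agent.Work.MP_1ce445_pl3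

theorem h_STQ : Stmt_STQ := stmt_STQ stmt_CR3 MP_1ce445_s9.h_S9 stmt_DG2
theorem h_GDQ : Stmt_GDQ := stmt_GDQ stmt_TAU stmt_TA2
theorem h_BDQ : Stmt_BDQ := stmt_BDQ (stmt_EMQ stmt_DG2)
theorem h_ADC : Stmt_ADC := stmt_ADC EndT_SMM stmt_TAU h_GDQ h_BDQ
theorem h_ADQ : Stmt_ADQ := stmt_ADQ EndT_SMM stmt_TAU h_GDQ h_BDQ
theorem h_AWQ : Stmt_AWQ := stmt_AWQ h_ADC h_ADQ
theorem h_UIQ : Stmt_UIQ := stmt_UIQ h_STQ h_AWQ stmt_PRM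

/-- The upper half: `P n k ≤ N^(k-3) (N/3 + 2 (1+ε) ρ + 2)³` for `3 ≤ k`, `25 k ≤ 3 n`. -/
theorem h_UYQ : Stmt_UYQ := stmt_UYQ h_UIQ h_UPS EndT_UUQ

theorem h_LEQ : Stmt_LEQ := stmt_LEQ h_LRL h_LMU h_LG1 h_LG2 h_LG3
theorem h_LGQ : Stmt_LGQ := stmt_LGQ h_LEQ h_LSM h_LTT

/-- The lower half: `N^(k-3) (N/3 + 2 (1-ε) ρ)³ ≤ P n k` for `28 ≤ k`, `8 k ≤ n`. -/
theorem h_LFQ : Stmt_LFQ := stmt_LFQ h_LGQ stmt_CLN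

/-- The whole first plateau. -/
theorem h_PL4 : Stmt_PL4 := stmt_PL4 h_UYQ h_LFQ

end Pool.Agent.Work.MP_1ce445_pl4
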